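import Mathlib
import Pool.Agent.T2H97.EDM.Block

set_option autoImplicit false

/-!
# It is consistent that `κ ↛ (κ, ω + 1)²` for singular `κ` of cofinality `ω₁`
-/

namespace Pool.Agent.Results.MP_e34318_lc.ConsistentFailure

open Cardinal Pool.Agent.Helper669.Forcing Pool.Agent.T2H97.EDM

/-- (1) For every cardinal `θ` there is a forcing notion `P` all of whose conditions force: `ℵ₁`
and all ground model cardinals above `2 ^ ℵ₀` are still cardinals, and every ground model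
cardinal `κ ≤ θ` which has cofinality `ℵ₁` and is larger than `2 ^ ℵ₀` has uncountable
cofinality and satisfies `κ ↛ (κ, ω + 1)²`.

(2) If the continuum hypothesis holds, then there is a forcing notion `P` all of whose
conditions force: all uncountable cardinals of the ground model are still cardinals (so `ℵ_{ω₁}`
is the same in the extension), `ℵ_{ω₁}` has uncountable cofinality, and
`ℵ_{ω₁} ↛ (ℵ_{ω₁}, ω + 1)²`. -/
theorem result :
    (∀ θ : Cardinal.{0}, ∃ (P : Type) (_ : Preorder P), Nonempty P ∧ ∀ p : P,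
      (∀ ν : Cardinal.{0}, (ν = ℵ₁ ∨ 2 ^ (ℵ₀ : Cardinal.{0}) < ν) → p ∈ StaysCardinal P ν) ∧
      ∀ κ ≤ θ, 2 ^ (ℵ₀ : Cardinal.{0}) < κ → κ.ord.cof = ℵ₁ →
        p ∈ UncountableCofinality P κ.ord.ToType ∧ p ∈ NotArrow P κ.ord.ToType) ∧
    (2 ^ (ℵ₀ : Cardinal.{0}) = ℵ₁ → ∃ (P : Type) (_ : Preorder P), Nonempty P ∧ ∀ p : P,
      (∀ ν : Cardinal.{0}, ℵ₀ < ν → p ∈ StaysCardinal P ν) ∧
      p ∈ UncountableCofinality P (ℵ_ (Ordinal.omega 1) : Cardinal.{0}).ord.ToType ∧
      p ∈ NotArrow P (ℵ_ (Ordinal.omega 1) : Cardinal.{0}).ord.ToType) := by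
  refine ⟨exists_forcing, fun hCH => ?_⟩
  obtain ⟨P, hP, hne, h⟩ := exists_forcing (ℵ_ (Ordinal.omega 1))
  refine ⟨P, hP, hne, fun p => ⟨fun ν hν => ?_, ?_⟩⟩
  · refine (h p).1 ν ?_
    rw [hCH]
    rcases (show ℵ₁ ≤ ν from by rw [← succ_aleph0]; exact Order.succ_le_of_lt hν).eq_or_lt with
      h1 | h1
    · exact Or.inl h1.symm
    · exact Or.inr h1
  · refine (h p).2 _ le_rfl ?_ cof_aleph_omega_one
    rw [hCH]
    exact aleph_lt_aleph.2 (Ordinal.one_lt_omega0.trans (Ordinal.omega0_lt_omega_one))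

end Pool.Agent.Results.MP_e34318_lc.ConsistentFailure
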